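import Pool.Agent.Helper85.ES.StI2
import Pool.Agent.Helper81.RL.M_PCR

/-!
# Project ES (MP_cb927e_an), part I, module OCE: pigeonhole over the steps of the ladder
-/

set_option autoImplicit false

open MeasureTheory Set Filter Topology
open scoped ENNReal RealInnerProductSpace

namespace Pool.Agent.Helper13.ES

open Pool.Agent.Helper85.ES
open Pool.Agent.Helper68.LM (Pl BB Bd Av HL ft fm DQ)
open Pool.Agent.Helper20.RG
open Pool.Agent.Helper20.RL
open Pool.Agent.Helper68.EP (Fb DQ3 Par Dat Sy q0 q1 DD Fo Rs)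
open Pool.Agent.Helper61.EP (Nn D8 trS dat Yc)
open Pool.Agent.Helper68.ES (ag Eg th Rc hn Crit cr Lw)
open Pool.Agent.Helper81.RL (PCR_Mt PCR_poly)

/-- large `u` -/
private theorem OCE_large {κ : ℝ} (hκ : 0 < κ) :
    ∃ u₀ : ℕ, ∀ u : ℕ, u₀ ≤ u → 2376 * (u : ℝ) ^ 2 ≤ (2 : ℝ) ^ (κ * u) := by
  have hr1 : (1 : ℝ) < (2 : ℝ) ^ κ := Real.one_lt_rpow (by norm_num) hκ
  have h := tendsto_pow_const_div_const_pow_of_one_lt 2 hr1
  have h1 := h.eventually (Iio_mem_nhds (show (0 : ℝ) < 1 / 2376 by norm_num))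
  obtain ⟨u₀, h2⟩ := eventually_atTop.1 h1
  refine ⟨u₀, fun u hu => ?_⟩
  have h3 := h2 u hu
  have hru : (0 : ℝ) < ((2 : ℝ) ^ κ) ^ u := by positivity
  have h4 : (u : ℝ) ^ 2 / ((2 : ℝ) ^ κ) ^ u < 1 / 2376 := h3
  rw [div_lt_iff₀ hru] at h4
  rw [Real.rpow_mul_natCast (by norm_num : (0 : ℝ) ≤ 2)]
  linarith

theorem hOCE (hLPG : Pool.Agent.Helper20.RL.StLPG) (hOCT : Pool.Agent.Helper85.ES.StOCT) :
    Pool.Agent.Helper85.ES.StOCE := by
  intro A p s e ε e₂ Cf hA hSm hCf hε he₂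
  obtain ⟨u₁, δ, C, ε', hδ, hC, hε', hmain⟩ := hOCT A p s e ε e₂ Cf hA hSm hCf hε he₂
  have hr1 : (1 : ℝ) < (2 : ℝ) ^ (ε' / 2) := Real.one_lt_rpow (by norm_num) (by linarith)
  obtain ⟨C₀, hC₀, hpoly⟩ := PCR_poly hr1
  obtain ⟨u₂, hlarge⟩ := OCE_large (show 0 < δ / 2 by linarith)
  refine ⟨max (max u₁ u₂) 2, δ / 2, 66 * C₀ * C, ε' / 2, by linarith, by positivity,
    by linarith, ?_⟩
  intro u q i sl c m F hu hSlo hcm hK hq hCr hor hF hCtl
  have hu1 : u₁ ≤ u := (le_max_left _ _).trans ((le_max_left _ _).trans hu)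
  have hu2 : u₂ ≤ u := (le_max_right _ _).trans ((le_max_left _ _).trans hu)
  have hu3 : 2 ≤ u := (le_max_right _ _).trans hu
  have huR : (2 : ℝ) ≤ u := by exact_mod_cast hu3
  have hup : (0 : ℝ) < u := by linarith
  have hMt := PCR_Mt (show 1 ≤ u by omega)
  have hMt0 : (0 : ℝ) < (Mt u : ℝ) + 2 := by positivity
  have hlg := hlarge u hu2
  classical
  set M : ℝ := (2 : ℝ) ^ ((i : ℝ) - δ / 2 * u) with hM
  have hM0 : 0 < M := by rw [hM]; positivity
  set m₁ : ℝ := M / ((Mt u : ℝ) + 2) with hm₁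
  have hm₁0 : 0 < m₁ := by rw [hm₁]; positivity
  have hth0 : 0 < th i := by unfold th; positivity
  have hth1 : th i ≤ 1 := by
    unfold th
    have h1 : (2 : ℝ) ^ (-(i : ℤ)) ≤ 1 := by
      rw [zpow_neg, zpow_natCast]
      exact inv_le_one_of_one_le₀ (one_le_pow₀ (by norm_num))
    linarith
  -- `2^(-δu) ≤ m₁ th i`
  have hNn1 : (2 : ℝ) ^ (-(δ * u)) ≤ m₁ * th i := by
    have h1 : M * (2 : ℝ) ^ (-(i : ℤ)) = (2 : ℝ) ^ (-(δ / 2 * u)) := by
      rw [hM, ← Real.rpow_intCast, ← Real.rpow_add (by norm_num)]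
      congr 1
      push_cast
      ring
    have h2 : m₁ * th i = (2 : ℝ) ^ (-(δ / 2 * u)) / (36 * ((Mt u : ℝ) + 2)) := by
      rw [← h1, hm₁]
      unfold th
      field_simp
    rw [h2, le_div_iff₀ (by positivity)]
    have h3 : 36 * ((Mt u : ℝ) + 2) ≤ 2376 * (u : ℝ) ^ 2 := by linarith
    calc (2 : ℝ) ^ (-(δ * u)) * (36 * ((Mt u : ℝ) + 2)) ≤
          (2 : ℝ) ^ (-(δ * u)) * (2 : ℝ) ^ (δ / 2 * u) :=
          mul_le_mul_of_nonneg_left (h3.trans hlg) (by positivity)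
      _ = (2 : ℝ) ^ (-(δ / 2 * u)) := by
          rw [← Real.rpow_add (by norm_num)]
          congr 1
          ring
  set S : ℕ → ℕ → Set Pl := fun τ k => {x | m₁ ≤ ({j : ℕ | j < 2 ^ u ∧
        Hit (sl j) (c j) (m j) u k (CU F (sl j) (m j) u (th i) τ k) x}.ncard : ℝ)} with hS
  set X : ℕ → Set Pl := fun k => {x | M ≤ ({j : ℕ | j < 2 ^ u ∧ Hit (sl j) (c j) (m j) u k
          {y | Rich F (sl j) ((k : ℤ) - (u : ℤ)) ((k : ℤ) - (m j : ℤ)) (th i) y} x}.ncard : ℝ)}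
    with hX
  -- the covering
  have hcov : ∀ k : ℕ, ∀ x ∈ X k, m₁ ≤ (2 : ℝ) ^ u ∧ ∃ τ ∈ Finset.range (Mt u + 2), x ∈ S τ k := by
    intro k x hx
    set J := (Finset.range (2 ^ u)).filter (fun j => Hit (sl j) (c j) (m j) u k
          {y | Rich F (sl j) ((k : ℤ) - (u : ℤ)) ((k : ℤ) - (m j : ℤ)) (th i) y} x) with hJ
    have hJs : {j : ℕ | j < 2 ^ u ∧ Hit (sl j) (c j) (m j) u k
          {y | Rich F (sl j) ((k : ℤ) - (u : ℤ)) ((k : ℤ) - (m j : ℤ)) (th i) y} x} = ↑J := by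
      ext j
      rw [hJ]
      simp
    have hcard : M ≤ (J.card : ℝ) := by
      have h1 : M ≤ ({j : ℕ | j < 2 ^ u ∧ Hit (sl j) (c j) (m j) u k
          {y | Rich F (sl j) ((k : ℤ) - (u : ℤ)) ((k : ℤ) - (m j : ℤ)) (th i) y} x}.ncard : ℝ) := hx
      rw [hJs, Set.ncard_coe_finset] at h1
      exact h1
    have hτ : ∀ j ∈ J, ∃ τ ≤ Mt u + 1,
        Hit (sl j) (c j) (m j) u k (CU F (sl j) (m j) u (th i) τ k) x := by
      intro j hj
      rw [hJ, Finset.mem_filter, Finset.mem_range] at hj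
      exact hLPG F (sl j) (c j) (m j) u (th i) k x (by omega) hth0 hj.2
    set T : ℕ → Finset ℕ := fun τ => (Finset.range (2 ^ u)).filter (fun j =>
      Hit (sl j) (c j) (m j) u k (CU F (sl j) (m j) u (th i) τ k) x) with hT
    have hJT : J ⊆ (Finset.range (Mt u + 2)).biUnion T := by
      intro j hj
      obtain ⟨τ, hτ1, hτ2⟩ := hτ j hj
      rw [Finset.mem_biUnion]
      refine ⟨τ, Finset.mem_range.2 (by omega), ?_⟩
      rw [hT]
      simp only [Finset.mem_filter]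
      exact ⟨(Finset.mem_filter.1 hj).1, hτ2⟩
    have hex : ∃ τ ∈ Finset.range (Mt u + 2), m₁ ≤ ((T τ).card : ℝ) := by
      by_contra hcon
      push Not at hcon
      have g1 : (J.card : ℝ) ≤ ∑ τ ∈ Finset.range (Mt u + 2), ((T τ).card : ℝ) := by
        have := (Finset.card_le_card hJT).trans Finset.card_biUnion_le
        exact_mod_cast this
      have g2 : ∑ τ ∈ Finset.range (Mt u + 2), ((T τ).card : ℝ) <
          ∑ _τ ∈ Finset.range (Mt u + 2), m₁ :=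
        Finset.sum_lt_sum_of_nonempty ⟨0, Finset.mem_range.2 (by omega)⟩ hcon
      rw [Finset.sum_const, Finset.card_range, nsmul_eq_mul] at g2
      have g3 : (((Mt u + 2 : ℕ) : ℝ)) * m₁ = M := by
        rw [hm₁]
        push_cast
        field_simp
      rw [g3] at g2
      linarith
    obtain ⟨τ, hτr, hτc⟩ := hex
    have hTs : {j : ℕ | j < 2 ^ u ∧
        Hit (sl j) (c j) (m j) u k (CU F (sl j) (m j) u (th i) τ k) x} = ↑(T τ) := by
      ext j
      rw [hT]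
      simp
    have hTc : ((T τ).card : ℝ) ≤ 2 ^ u := by
      have : (T τ).card ≤ 2 ^ u := by
        have := Finset.card_filter_le (Finset.range (2 ^ u)) (fun j =>
          Hit (sl j) (c j) (m j) u k (CU F (sl j) (m j) u (th i) τ k) x)
        rwa [Finset.card_range] at this
      exact_mod_cast this
    refine ⟨hτc.trans hTc, τ, hτr, ?_⟩
    show m₁ ≤ _
    rw [hTs, Set.ncard_coe_finset]
    exact hτc
  show ∑ k ∈ (Finset.range (2 ^ q)).filter (fun k => 7 * 2 ^ q ≤ 8 * k), volume (X k) ≤ _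
  by_cases hm : m₁ ≤ (2 : ℝ) ^ u
  swap
  · have h0 : ∀ k : ℕ, volume (X k) = 0 := by
      intro k
      have : X k = ∅ := by
        rw [Set.eq_empty_iff_forall_notMem]
        intro x hx
        exact hm (hcov k x hx).1
      rw [this, measure_empty]
    rw [Finset.sum_eq_zero (fun k _ => h0 k)]
    exact bot_le
  set Q := (Finset.range (2 ^ q)).filter (fun k => 7 * 2 ^ q ≤ 8 * k) with hQ
  set B : ℝ≥0∞ := ENNReal.ofReal (C * (2 : ℝ) ^ ((p - ε') * u)) * volume F with hB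
  have hstep : ∀ τ ∈ Finset.range (Mt u + 2), ∑ k ∈ Q, volume (S τ k) ≤ B := by
    intro τ hτ
    rw [Finset.mem_range] at hτ
    exact hmain u q i τ sl c m F m₁ hu1 hu3 hSlo hcm hK hq hCr hor hF hCtl
      ⟨hth0, hth1, hNn1, hm⟩ (by omega)
  have hbound : ∑ k ∈ Q, volume (X k) ≤
      ∑ τ ∈ Finset.range (Mt u + 2), ∑ k ∈ Q, volume (S τ k) := by
    have g1 : ∀ k ∈ Q, volume (X k) ≤ ∑ τ ∈ Finset.range (Mt u + 2), volume (S τ k) := by
      intro k _
      have g2 : X k ⊆ ⋃ τ ∈ Finset.range (Mt u + 2), S τ k := by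
        intro x hx
        obtain ⟨-, τ, hτ, hxτ⟩ := hcov k x hx
        simp only [Set.mem_iUnion]
        exact ⟨τ, hτ, hxτ⟩
      exact (measure_mono g2).trans (measure_biUnion_finset_le _ _)
    refine (Finset.sum_le_sum g1).trans ?_
    rw [Finset.sum_comm]
  refine hbound.trans ?_
  refine (Finset.sum_le_sum hstep).trans ?_
  rw [Finset.sum_const, Finset.card_range, nsmul_eq_mul, hB, ← mul_assoc]
  apply mul_le_mul_left
  rw [← ENNReal.ofReal_natCast, ← ENNReal.ofReal_mul (by positivity)]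
  apply ENNReal.ofReal_le_ofReal
  have h2 : ((Mt u + 2 : ℕ) : ℝ) ≤ 66 * (u : ℝ) ^ 3 := by
    push_cast
    have : (u : ℝ) ^ 2 ≤ (u : ℝ) ^ 3 := pow_le_pow_right₀ (by linarith) (by norm_num)
    linarith
  have h3 := hpoly u
  rw [← Real.rpow_mul_natCast (by norm_num : (0 : ℝ) ≤ 2)] at h3
  have h4 : (0 : ℝ) < C * (2 : ℝ) ^ ((p - ε') * u) := by positivity
  calc ((Mt u + 2 : ℕ) : ℝ) * (C * (2 : ℝ) ^ ((p - ε') * u)) ≤
        66 * (u : ℝ) ^ 3 * (C * (2 : ℝ) ^ ((p - ε') * u)) := mul_le_mul_of_nonneg_right h2 h4.le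
    _ ≤ 66 * (C₀ * (2 : ℝ) ^ (ε' / 2 * (u : ℝ))) * (C * (2 : ℝ) ^ ((p - ε') * u)) := by
        apply mul_le_mul_of_nonneg_right _ h4.le
        linarith
    _ = 66 * C₀ * C * (2 : ℝ) ^ ((p - ε' / 2) * u) := by
        have : (2 : ℝ) ^ ((p - ε' / 2) * u) =
            (2 : ℝ) ^ (ε' / 2 * (u : ℝ)) * (2 : ℝ) ^ ((p - ε') * u) := by
          rw [← Real.rpow_add (by norm_num)]
          congr 1
          ring
        rw [this]
        ring

end Pool.Agent.Helper13.ES
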